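import Pool.Agent.H53.UK.Targets

/-!
HSU: if a set of the family has a small decision tree, then its kernel is hit (helper55).
-/

set_option autoImplicit false

namespace Pool.Agent.H55.UK

open Finset
open Pool.Agent.H53.UK
open Pool.Agent.H53.MC (Clause Falsified SatBy Line Circuit)
open Pool.Agent.H53.MW (th0 th1)
open Pool.Agent.H97.SHL (DT bl)

theorem pf_HSU (hTEU : T_TEU) (hDTR : Pool.Agent.H53.MW.T_DTR) : T_HSU := by
  intro n k ι _ H w s₀ d r s hH hw hn hr 𝒬 𝓕 R hR B hB S hS hD p hp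
  obtain ⟨Q, hQ1, hQ2, hQ3, hQ4⟩ := hR B hB p hp
  by_contra hcon
  have h1 := (hDTR (Fin n → Bool) 𝒬 (LfU H R r) (by
    rintro A A' ⟨T, hT1, hT2, hT3⟩ hAA
    exact ⟨T, hT1, hT2, fun x hx => hT3 x (hAA hx)⟩) B n S hD).1 Q hQ1
  have h2 := hTEU H w s₀ d r hH hw hn hr 𝒬 R p.1 p.2 Q S hQ2 hQ4 hcon h1
  have h3 : 4 * (th0 n w * 2 ^ (d * s₀)) * S ≤ 4 * (th0 n w * 2 ^ (d * s₀)) * s :=
    Nat.mul_le_mul_left _ hS
  unfold th1 at hQ3
  omega

end Pool.Agent.H55.UK
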